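import Mathlib
import Pool.Agent.R627.IrrCoset

/-!
# A faithful irreducible coset space with an abelian minimal closed normal subgroup which is not
its own centralizer
-/

set_option autoImplicit false

namespace Pool.Agent.Results.MP_f36f0e_al.LargeCentralizer

open Pool.Agent.R627.CosetDefs Pool.Agent.R627.IrrCoset

/-- There are a Hausdorff topological group `G`, a subgroup `H` such that `G/H` is a faithful
irreducible coset space, and an abelian minimal closed normal subgroup `M` of `G` which is properly
contained in its centralizer. -/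
theorem result : ∃ (G : Type) (_ : Group G) (_ : TopologicalSpace G) (_ : IsTopologicalGroup G)
    (_ : T2Space G) (H M : Subgroup G),
    IrreducibleCoset H ∧ FaithfulCoset H ∧
    MinClosedNormal M ∧ (∀ x ∈ M, ∀ y ∈ M, x * y = y * x) ∧
    M < Subgroup.centralizer (M : Set G) := by
  obtain ⟨P⟩ := exists_par
  refine ⟨G P, inferInstance, inferInstance, inferInstance, inferInstance, H P, V P 0,
    irreducible P, faithful P, minimal P 0, fun x hx y hy => V_comm 0 hx hy, ?_⟩
  rw [SetLike.lt_iff_le_and_exists]
  refine ⟨?_, vu P 1, ?_, ?_⟩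
  · intro x hx
    rw [Subgroup.mem_centralizer_iff]
    intro y hy
    exact V_comm 0 hy hx
  · rw [Subgroup.mem_centralizer_iff]
    intro y hy
    exact V_comm' 0 1 hy (vu_mem 1)
  · intro h
    have h1 : vu P 1 ∈ V P 0 ⊓ V P 1 := ⟨h, vu_mem 1⟩
    rw [V_inf (by norm_num), Subgroup.mem_bot] at h1
    exact vu_ne_one 1 h1

end Pool.Agent.Results.MP_f36f0e_al.LargeCentralizer
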